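import Mathlib
import Pool.Agent.W670.ML.Defs

/-!
Hermite: finitely many subfields of bounded discriminant.
-/

set_option autoImplicit false

namespace Pool.Agent.W33.ML

open NumberField Pool.Agent.W670.ML

theorem he : S_HE := by
  intro Ω _ inst Y
  have hc : CharZero Ω := algebraRat.charZero Ω
  obtain rfl : inst = @DivisionRing.toRatAlgebra Ω _ hc := Subsingleton.elim _ _
  apply ((NumberField.finite_of_discr_bdd Ω ⌈Y⌉₊).image Subtype.val).subset
  rintro M ⟨hM, hd⟩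
  refine ⟨⟨M, @NumberField.to_finiteDimensional _ _ hM⟩, ?_, rfl⟩
  show |discr M| ≤ ((⌈Y⌉₊ : ℕ) : ℤ)
  rw [Int.abs_eq_natAbs]
  have h1 : ((discr M).natAbs : ℝ) ≤ ((⌈Y⌉₊ : ℕ) : ℝ) := hd.trans (Nat.le_ceil Y)
  exact_mod_cast h1

end Pool.Agent.W33.ML
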